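import Mathlib

/-! # The continuous four functions theorem

For a lattice `α` with a measure `μ` we say that `FourFun μ` holds if the four functions theorem
holds for `μ`: for measurable `f₁ f₂ f₃ f₄ : α → ℝ≥0∞` with
`f₁ x * f₂ y ≤ f₃ (x ⊔ y) * f₄ (x ⊓ y)` for all `x y`, one has
`(∫⁻ f₁) * (∫⁻ f₂) ≤ (∫⁻ f₃) * (∫⁻ f₄)`.

It holds for every measure on a linear order, is stable under products and order isomorphisms,
and so holds for `Measure.pi` of s-finite measures on linear orders. -/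

open MeasureTheory
open scoped ENNReal

namespace Pool.MP_c534e4_co.H50

/-- The elementary inequality behind the four functions theorem. -/
theorem add_le_add_of_mul {a b c d : ℝ≥0∞} (hac : a ≤ c) (hbc : b ≤ c) (h : a * b ≤ c * d) :
    a + b ≤ c + d := by
  rcases eq_or_ne c ⊤ with rfl | hc
  · simp
  rcases eq_or_ne d ⊤ with rfl | hd
  · simp
  have ha : a ≠ ⊤ := ne_top_of_le_ne_top hc hac
  have hb : b ≠ ⊤ := ne_top_of_le_ne_top hc hbc
  lift a to NNReal using ha
  lift b to NNReal using hb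
  lift c to NNReal using hc
  lift d to NNReal using hd
  have hac' : (a : ℝ) ≤ c := by exact_mod_cast hac
  have hbc' : (b : ℝ) ≤ c := by exact_mod_cast hbc
  have h' : (a : ℝ) * b ≤ c * d := by exact_mod_cast h
  have key : (a : ℝ) + b ≤ c + d := by
    rcases (NNReal.coe_nonneg c).eq_or_lt with hc0 | hc0
    · have h1 : (a : ℝ) = 0 := le_antisymm (by linarith) a.coe_nonneg
      have h2 : (b : ℝ) = 0 := le_antisymm (by linarith) b.coe_nonneg
      have := d.coe_nonneg
      linarith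
    · by_contra hcon
      push Not at hcon
      nlinarith [mul_nonneg (sub_nonneg.2 hac') (sub_nonneg.2 hbc'),
        mul_lt_mul_of_pos_left hcon hc0]
  exact_mod_cast key

/-- The four functions property of a measure on a lattice. -/
def FourFun {α : Type*} [Lattice α] [MeasurableSpace α] (μ : Measure α) : Prop :=
  ∀ f₁ f₂ f₃ f₄ : α → ℝ≥0∞, Measurable f₁ → Measurable f₂ → Measurable f₃ → Measurable f₄ →
    (∀ x y, f₁ x * f₂ y ≤ f₃ (x ⊔ y) * f₄ (x ⊓ y)) →
    (∫⁻ x, f₁ x ∂μ) * (∫⁻ x, f₂ x ∂μ) ≤ (∫⁻ x, f₃ x ∂μ) * (∫⁻ x, f₄ x ∂μ)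

/-- The four functions theorem on a linear order. -/
theorem fourFun_linearOrder {α : Type*} [LinearOrder α] [MeasurableSpace α] (μ : Measure α) :
    FourFun μ := by
  intro f₁ f₂ f₃ f₄ h₁ h₂ h₃ h₄ h
  have sym : ∀ g₁ g₂ : α → ℝ≥0∞, Measurable g₁ → Measurable g₂ →
      ∫⁻ x, ∫⁻ y, (g₁ x * g₂ y + g₁ y * g₂ x) ∂μ ∂μ
        = 2 * ((∫⁻ x, g₁ x ∂μ) * (∫⁻ x, g₂ x ∂μ)) := by
    intro g₁ g₂ hg₁ hg₂
    have e1 : ∀ x, ∫⁻ y, (g₁ x * g₂ y + g₁ y * g₂ x) ∂μ
        = g₁ x * (∫⁻ y, g₂ y ∂μ) + (∫⁻ y, g₁ y ∂μ) * g₂ x := by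
      intro x
      rw [lintegral_add_left (hg₂.const_mul _), lintegral_const_mul _ hg₂,
        lintegral_mul_const _ hg₁]
    simp_rw [e1]
    rw [lintegral_add_left (hg₁.mul_const _), lintegral_mul_const _ hg₁,
      lintegral_const_mul _ hg₂, two_mul]
  have pt : ∀ x y, f₁ x * f₂ y + f₁ y * f₂ x ≤ f₃ x * f₄ y + f₃ y * f₄ x := by
    have aux : ∀ x y, x ≤ y → f₁ x * f₂ y + f₁ y * f₂ x ≤ f₃ y * f₄ x + f₃ x * f₄ y := by
      intro x y hxy
      apply add_le_add_of_mul
      · simpa [sup_eq_right.2 hxy, inf_eq_left.2 hxy] using h x y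
      · simpa [sup_eq_left.2 hxy, inf_eq_right.2 hxy] using h y x
      · have hx := h x x
        have hy := h y y
        simp only [le_refl, sup_of_le_left, inf_of_le_left] at hx hy
        calc f₁ x * f₂ y * (f₁ y * f₂ x) = (f₁ x * f₂ x) * (f₁ y * f₂ y) := by ring
          _ ≤ (f₃ x * f₄ x) * (f₃ y * f₄ y) := mul_le_mul' hx hy
          _ = f₃ y * f₄ x * (f₃ x * f₄ y) := by ring
    intro x y
    rcases le_total x y with hxy | hxy
    · rw [add_comm (f₃ x * f₄ y)]; exact aux x y hxy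
    · rw [add_comm (f₁ x * f₂ y)]; exact aux y x hxy
  have key : 2 * ((∫⁻ x, f₁ x ∂μ) * (∫⁻ x, f₂ x ∂μ)) ≤ 2 * ((∫⁻ x, f₃ x ∂μ) * (∫⁻ x, f₄ x ∂μ)) := by
    rw [← sym f₁ f₂ h₁ h₂, ← sym f₃ f₄ h₃ h₄]
    exact lintegral_mono fun x => lintegral_mono fun y => pt x y
  exact (ENNReal.mul_le_mul_iff_right two_ne_zero ENNReal.ofNat_ne_top).1 key

/-- The four functions property passes to products. -/
theorem FourFun.prod {α β : Type*} [Lattice α] [MeasurableSpace α] [Lattice β]
    [MeasurableSpace β] {μ : Measure α} {ν : Measure β} [SFinite ν]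
    (hμ : FourFun μ) (hν : FourFun ν) : FourFun (μ.prod ν) := by
  intro f₁ f₂ f₃ f₄ h₁ h₂ h₃ h₄ h
  rw [lintegral_prod _ h₁.aemeasurable, lintegral_prod _ h₂.aemeasurable,
    lintegral_prod _ h₃.aemeasurable, lintegral_prod _ h₄.aemeasurable]
  apply hμ
  · exact h₁.lintegral_prod_right'
  · exact h₂.lintegral_prod_right'
  · exact h₃.lintegral_prod_right'
  · exact h₄.lintegral_prod_right'
  · intro a a'
    apply hν
    · exact h₁.comp measurable_prodMk_left
    · exact h₂.comp measurable_prodMk_left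
    · exact h₃.comp measurable_prodMk_left
    · exact h₄.comp measurable_prodMk_left
    · intro b b'
      exact h (a, b) (a', b')

/-- The four functions property is transported by measure preserving lattice isomorphisms
which are measurable equivalences. -/
theorem FourFun.map {α β : Type*} [Lattice α] [MeasurableSpace α] [Lattice β]
    [MeasurableSpace β] {μ : Measure α} {ν : Measure β} (e : α ≃ᵐ β)
    (he : MeasurePreserving e μ ν)
    (hsup : ∀ x y, e (x ⊔ y) = e x ⊔ e y) (hinf : ∀ x y, e (x ⊓ y) = e x ⊓ e y)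
    (hν : FourFun ν) : FourFun μ := by
  intro f₁ f₂ f₃ f₄ h₁ h₂ h₃ h₄ h
  have tr : ∀ f : α → ℝ≥0∞, ∫⁻ x, f x ∂μ = ∫⁻ y, f (e.symm y) ∂ν := by
    intro f
    rw [← he.map_eq, lintegral_map_equiv]
    simp
  rw [tr, tr, tr, tr]
  apply hν
  · exact h₁.comp e.symm.measurable
  · exact h₂.comp e.symm.measurable
  · exact h₃.comp e.symm.measurable
  · exact h₄.comp e.symm.measurable
  · intro x y
    have h1 : e.symm (x ⊔ y) = e.symm x ⊔ e.symm y := by
      apply e.injective
      rw [hsup]; simp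
    have h2 : e.symm (x ⊓ y) = e.symm x ⊓ e.symm y := by
      apply e.injective
      rw [hinf]; simp
    rw [h1, h2]
    exact h _ _

/-- The four functions theorem for finite products indexed by `Fin n`. -/
theorem fourFun_pi_fin (n : ℕ) {α : Fin n → Type*} [∀ i, LinearOrder (α i)]
    [∀ i, MeasurableSpace (α i)] (μ : ∀ i, Measure (α i)) [∀ i, SigmaFinite (μ i)] :
    FourFun (Measure.pi μ) := by
  induction n with
  | zero =>
    intro f₁ f₂ f₃ f₄ h₁ h₂ h₃ h₄ h
    have hh := h default default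
    rw [Measure.pi_of_empty μ]
    simp only [lintegral_dirac' _ h₁, lintegral_dirac' _ h₂, lintegral_dirac' _ h₃,
      lintegral_dirac' _ h₄]
    have e : ∀ (f : (∀ i, α i) → ℝ≥0∞) (a b : ∀ i, α i), f a = f b := fun f a b =>
      congrArg f (Subsingleton.elim a b)
    calc _ = f₁ default * f₂ default := by rw [e f₁ _ default, e f₂ _ default]
      _ ≤ _ := hh
      _ = _ := congrArg₂ (· * ·) (e f₃ _ _) (e f₄ _ _)
  | succ n ih =>
    refine FourFun.map (MeasurableEquiv.piFinSuccAbove α 0)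
      (measurePreserving_piFinSuccAbove μ 0) ?_ ?_ (FourFun.prod (fourFun_linearOrder _) (ih _))
    · intro x y; rfl
    · intro x y; rfl

/-- The four functions theorem for finite products. -/
theorem fourFun_pi {ι : Type*} [Fintype ι] {α : ι → Type*} [∀ i, LinearOrder (α i)]
    [∀ i, MeasurableSpace (α i)] (μ : ∀ i, Measure (α i)) [∀ i, SigmaFinite (μ i)] :
    FourFun (Measure.pi μ) := by
  classical
  let e := Fintype.equivFin ι
  refine FourFun.map (MeasurableEquiv.piCongrLeft α e.symm).symm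
    (measurePreserving_piCongrLeft μ e.symm).symm ?_ ?_
    (fourFun_pi_fin (Fintype.card ι) fun i => μ (e.symm i))
  · intro x y
    funext i
    simp [MeasurableEquiv.piCongrLeft, Equiv.piCongrLeft, Equiv.piCongrLeft']
  · intro x y
    funext i
    simp [MeasurableEquiv.piCongrLeft, Equiv.piCongrLeft, Equiv.piCongrLeft']

/-- The four functions theorem for Lebesgue measure on `ι → ℝ`. -/
theorem fourFun_volume (ι : Type*) [Fintype ι] : FourFun (volume : Measure (ι → ℝ)) := by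
  rw [volume_pi]
  exact fourFun_pi _

/-- Explicit form of `fourFun_volume`. -/
theorem four_functions_volume {ι : Type*} [Fintype ι] (f₁ f₂ f₃ f₄ : (ι → ℝ) → ℝ≥0∞)
    (h₁ : Measurable f₁) (h₂ : Measurable f₂) (h₃ : Measurable f₃) (h₄ : Measurable f₄)
    (h : ∀ x y, f₁ x * f₂ y ≤ f₃ (x ⊔ y) * f₄ (x ⊓ y)) :
    (∫⁻ x, f₁ x) * (∫⁻ x, f₂ x) ≤ (∫⁻ x, f₃ x) * (∫⁻ x, f₄ x) :=
  fourFun_volume ι f₁ f₂ f₃ f₄ h₁ h₂ h₃ h₄ h

/-- The point of `ι → ℝ` with `z`-coordinate `c` and the other coordinates given by `x`. -/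
noncomputable def pin {ι : Type*} (z : ι) (c : ℝ) (x : {i // i ≠ z} → ℝ) : ι → ℝ := by
  classical
  exact fun i => if h : i = z then c else x ⟨i, h⟩

@[simp] theorem pin_self {ι : Type*} (z : ι) (c : ℝ) (x : {i // i ≠ z} → ℝ) :
    pin z c x z = c := by
  simp [pin]

@[simp] theorem pin_of_ne {ι : Type*} (z : ι) (c : ℝ) (x : {i // i ≠ z} → ℝ) {i : ι}
    (h : i ≠ z) : pin z c x i = x ⟨i, h⟩ := by
  simp [pin, h]

theorem measurable_pin {ι : Type*} (z : ι) (c : ℝ) : Measurable (pin z c) := by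
  refine measurable_pi_lambda _ fun i => ?_
  by_cases h : i = z
  · subst h; simp
  · simp only [pin_of_ne z c _ h]
    exact measurable_pi_apply _

theorem pin_sup {ι : Type*} (z : ι) (c c' : ℝ) (x y : {i // i ≠ z} → ℝ) :
    pin z (c ⊔ c') (x ⊔ y) = pin z c x ⊔ pin z c' y := by
  funext i
  by_cases h : i = z
  · subst h; simp
  · simp [pin_of_ne, h]

theorem pin_inf {ι : Type*} (z : ι) (c c' : ℝ) (x y : {i // i ≠ z} → ℝ) :
    pin z (c ⊓ c') (x ⊓ y) = pin z c x ⊓ pin z c' y := by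
  funext i
  by_cases h : i = z
  · subst h; simp
  · simp [pin_of_ne, h]

/-- The four functions theorem with one coordinate pinned at two (different) values. -/
theorem four_functions_pin {ι : Type*} [Fintype ι] [DecidableEq ι] (z : ι) (c c' : ℝ)
    (f₁ f₂ f₃ f₄ : (ι → ℝ) → ℝ≥0∞)
    (h₁ : Measurable f₁) (h₂ : Measurable f₂) (h₃ : Measurable f₃) (h₄ : Measurable f₄)
    (h : ∀ x y, x z = c → y z = c' → f₁ x * f₂ y ≤ f₃ (x ⊔ y) * f₄ (x ⊓ y)) :
    (∫⁻ x, f₁ (pin z c x)) * (∫⁻ x, f₂ (pin z c' x)) ≤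
      (∫⁻ x, f₃ (pin z (c ⊔ c') x)) * (∫⁻ x, f₄ (pin z (c ⊓ c') x)) := by
  refine four_functions_volume _ _ _ _ (h₁.comp (measurable_pin z c))
    (h₂.comp (measurable_pin z c')) (h₃.comp (measurable_pin z _))
    (h₄.comp (measurable_pin z _)) fun x y => ?_
  simp only [pin_sup, pin_inf]
  exact h _ _ (by simp) (by simp)

/-- The FKG inequality for a log-supermodular weight and two nonnegative monotone functions. -/
theorem fkg_volume {ι : Type*} [Fintype ι] (w f g : (ι → ℝ) → ℝ≥0∞)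
    (hw : Measurable w) (hf : Measurable f) (hg : Measurable g)
    (hmod : ∀ x y, w x * w y ≤ w (x ⊔ y) * w (x ⊓ y)) (hfm : Monotone f) (hgm : Monotone g) :
    (∫⁻ x, f x * w x) * (∫⁻ x, g x * w x) ≤ (∫⁻ x, f x * g x * w x) * (∫⁻ x, w x) := by
  refine four_functions_volume _ _ _ _ (hf.mul hw) (hg.mul hw) ((hf.mul hg).mul hw) hw
    fun x y => ?_
  calc f x * w x * (g y * w y) = (f x * g y) * (w x * w y) := by ring
    _ ≤ (f (x ⊔ y) * g (x ⊔ y)) * (w (x ⊔ y) * w (x ⊓ y)) :=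
        mul_le_mul' (mul_le_mul' (hfm le_sup_left) (hgm le_sup_right)) (hmod x y)
    _ = _ := by ring

end Pool.MP_c534e4_co.H50
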