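import Pool.Agent.Lib.MP_c534e4_co.KsBasic
import Pool.Agent.Lib.MP_c534e4_co.H50.FourFun

/-! Helper lemmas for Density.lean. -/

set_option autoImplicit false

namespace KS

open MeasureTheory Set ProbabilityTheory
open scoped ENNReal

section ext

variable {Q : Type}

@[simp] theorem ext_self (y : Q) (c : ℝ) (T : {x : Q // x ≠ y} → ℝ) : ext y c T y = c := by
  simp [ext]

theorem ext_of_ne (y : Q) (c : ℝ) (T : {x : Q // x ≠ y} → ℝ) {x : Q} (h : x ≠ y) :
    ext y c T x = T ⟨x, h⟩ := by
  simp [ext, h]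

theorem measurable_ext (y : Q) (c : ℝ) : Measurable (ext y c) := by
  refine measurable_pi_lambda _ fun x => ?_
  by_cases h : x = y
  · subst h; simp
  · simp only [ext_of_ne y c _ h]
    exact measurable_pi_apply _

theorem ext_sup (z : Q) {c c' : ℝ} (h : c ≤ c') (x y : {i // i ≠ z} → ℝ) :
    ext z c' (x ⊔ y) = ext z c x ⊔ ext z c' y := by
  funext i
  by_cases hi : i = z
  · subst hi; simp [h]
  · simp [ext_of_ne, hi]

theorem ext_inf (z : Q) {c c' : ℝ} (h : c ≤ c') (x y : {i // i ≠ z} → ℝ) :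
    ext z c (x ⊓ y) = ext z c x ⊓ ext z c' y := by
  funext i
  by_cases hi : i = z
  · subst hi; simp [h]
  · simp [ext_of_ne, hi]

theorem measurable_pin' (z : Q) (c : ℝ) : Measurable (pin z c : (Q → ℝ) → (Q → ℝ)) := by
  unfold pin
  fun_prop

end ext

section wO

variable {Q : Type} [Fintype Q] [PartialOrder Q]

theorem measurableSet_strictMono : MeasurableSet {S : Q → ℝ | StrictMono S} := by
  have : {S : Q → ℝ | StrictMono S} = ⋂ a : Q, ⋂ b : Q, ⋂ _ : a < b, {S : Q → ℝ | S a < S b} := by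
    ext S
    simp [StrictMono]
  rw [this]
  exact MeasurableSet.iInter fun a => MeasurableSet.iInter fun b => MeasurableSet.iInter fun _ =>
    measurableSet_lt (measurable_pi_apply a) (measurable_pi_apply b)

theorem measurable_wO [BoundedOrder Q] : Measurable (wO : (Q → ℝ) → ℝ≥0∞) := by
  unfold wO
  refine Measurable.ite measurableSet_strictMono ?_ measurable_const
  fun_prop

theorem wO_mul_le [BoundedOrder Q] (S T : Q → ℝ) :
    wO S * wO T ≤ wO (S ⊓ T) * wO (S ⊔ T) := by
  unfold wO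
  by_cases hS : StrictMono S
  swap
  · simp [hS]
  by_cases hT : StrictMono T
  swap
  · simp [hT]
  have h1 : StrictMono (S ⊓ T) := fun a b hab => min_lt_min (hS hab) (hT hab)
  have h2 : StrictMono (S ⊔ T) := fun a b hab => max_lt_max (hS hab) (hT hab)
  rw [if_pos hS, if_pos hT, if_pos h1, if_pos h2, ← ENNReal.ofReal_mul (Real.exp_pos _).le,
    ← ENNReal.ofReal_mul (Real.exp_pos _).le, ← Real.exp_add, ← Real.exp_add]
  refine le_of_eq ?_
  congr 2
  have e1 := min_add_max (S ⊤) (T ⊤)
  have e2 := min_add_max (S ⊥) (T ⊥)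
  simp only [Pi.inf_apply, Pi.sup_apply]
  linarith

end wO

section pi

/-- Product functions integrate to products. -/
theorem lintegral_pi_prod_fin (n : ℕ) (μ : Fin n → Measure ℝ) [∀ i, SigmaFinite (μ i)]
    (f : Fin n → ℝ → ℝ≥0∞) (hf : ∀ i, Measurable (f i)) :
    ∫⁻ T, ∏ i, f i (T i) ∂(Measure.pi μ) = ∏ i, ∫⁻ t, f i t ∂(μ i) := by
  induction n with
  | zero =>
    simp [Measure.pi_of_empty μ]
  | succ n ih =>
    have e := measurePreserving_piFinSuccAbove μ 0
    have hm1 : Measurable fun p : ℝ × (Fin n → ℝ) => ∏ i : Fin n, f i.succ (p.2 i) :=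
      Finset.measurable_prod _ fun i _ => (hf i.succ).comp
        ((measurable_pi_apply i).comp measurable_snd)
    have hm : Measurable fun p : ℝ × (Fin n → ℝ) => f 0 p.1 * ∏ i : Fin n, f i.succ (p.2 i) :=
      ((hf 0).comp measurable_fst).mul hm1
    have key : ∫⁻ T, ∏ i, f i (T i) ∂(Measure.pi μ)
        = ∫⁻ p : ℝ × (Fin n → ℝ), f 0 p.1 * ∏ i : Fin n, f i.succ (p.2 i)
          ∂((μ 0).prod (Measure.pi fun i : Fin n => μ i.succ)) := by
      have := e.lintegral_comp hm
      rw [show (μ 0).prod (Measure.pi fun i : Fin n => μ i.succ)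
        = (μ 0).prod (Measure.pi fun i => μ ((0 : Fin (n+1)).succAbove i)) from by simp]
      rw [← this]
      refine lintegral_congr fun T => ?_
      rw [Fin.prod_univ_succ]
      rfl
    have hm2 : Measurable fun T : Fin n → ℝ => ∏ i, f i.succ (T i) :=
      Finset.measurable_prod _ fun i _ => (hf i.succ).comp (measurable_pi_apply i)
    rw [key, lintegral_prod_mul (f := f 0) (hf 0).aemeasurable hm2.aemeasurable,
      ih _ (fun i => f i.succ) (fun i => hf i.succ), Fin.prod_univ_succ]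

theorem lintegral_pi_prod {ι : Type} [Fintype ι] (μ : ι → Measure ℝ) [∀ i, SigmaFinite (μ i)]
    (f : ι → ℝ → ℝ≥0∞) (hf : ∀ i, Measurable (f i)) :
    ∫⁻ T, ∏ i, f i (T i) ∂(Measure.pi μ) = ∏ i, ∫⁻ t, f i t ∂(μ i) := by
  classical
  let e := Fintype.equivFin ι
  have h := lintegral_pi_prod_fin (Fintype.card ι) (fun i => μ (e.symm i)) (fun i => f (e.symm i))
    (fun i => hf _)
  have mp := measurePreserving_piCongrLeft μ e.symm
  have hm : Measurable fun T : ι → ℝ => ∏ i, f i (T i) :=
    Finset.measurable_prod _ fun i _ => (hf i).comp (measurable_pi_apply i)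
  have h2 := mp.lintegral_comp hm
  rw [← h2]
  have e1 : ∏ i, ∫⁻ t, f i t ∂(μ i) = ∏ j, ∫⁻ t, f (e.symm j) t ∂(μ (e.symm j)) :=
    (Equiv.prod_comp e.symm fun i => ∫⁻ t, f i t ∂(μ i)).symm
  rw [e1, ← h]
  refine lintegral_congr fun T => ?_
  rw [← Equiv.prod_comp e.symm]
  refine Finset.prod_congr rfl fun j _ => ?_
  congr 1
  exact Equiv.piCongrLeft_apply_apply (fun _ => ℝ) e.symm T j

/-- Change of variables in each coordinate. -/
theorem lintegral_coord_change {ι : Type} [Fintype ι] (φ : ι → ℝ → ℝ) (J : ι → ℝ → ℝ≥0∞)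
    (hφ : ∀ i, Measurable (φ i)) (hJ : ∀ i, Measurable (J i))
    (h : ∀ i, ((volume : Measure ℝ).withDensity (J i)).map (φ i) = volume)
    (G : (ι → ℝ) → ℝ≥0∞) (hG : Measurable G) :
    ∫⁻ T : ι → ℝ, G T = ∫⁻ T : ι → ℝ, G (fun i => φ i (T i)) * ∏ i, J i (T i) := by
  have hP : Measurable fun T : ι → ℝ => ∏ i, J i (T i) :=
    Finset.measurable_prod _ fun i _ => (hJ i).comp (measurable_pi_apply i)
  have hΦ : Measurable fun (T : ι → ℝ) (i : ι) => φ i (T i) :=
    measurable_pi_lambda _ fun i => (hφ i).comp (measurable_pi_apply i)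
  have key : ((volume : Measure (ι → ℝ)).withDensity fun T => ∏ i, J i (T i)).map
      (fun T i => φ i (T i)) = volume := by
    rw [volume_pi]
    refine (Measure.pi_eq fun s hs => ?_).symm
    rw [Measure.map_apply hΦ (MeasurableSet.univ_pi hs),
      withDensity_apply _ (hΦ (MeasurableSet.univ_pi hs)),
      ← lintegral_indicator (hΦ (MeasurableSet.univ_pi hs))]
    have e1 : ∀ T : ι → ℝ, ((fun (T : ι → ℝ) (i : ι) => φ i (T i)) ⁻¹' Set.univ.pi s).indicator
        (fun T => ∏ i, J i (T i)) T = ∏ i, ((φ i ⁻¹' s i).indicator (J i)) (T i) := by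
      intro T
      by_cases hT : ∀ i, φ i (T i) ∈ s i
      · rw [Set.indicator_of_mem (by simpa [Set.mem_pi] using hT)]
        refine Finset.prod_congr rfl fun i _ => ?_
        rw [Set.indicator_of_mem (by simpa using hT i)]
      · rw [Set.indicator_of_notMem (by simpa [Set.mem_pi] using hT)]
        push Not at hT
        obtain ⟨i, hi⟩ := hT
        refine (Finset.prod_eq_zero (Finset.mem_univ i) ?_).symm
        rw [Set.indicator_of_notMem (by simpa using hi)]
    simp_rw [e1]
    rw [lintegral_pi_prod (fun _ => volume) _ fun i => (hJ i).indicator ((hφ i) (hs i))]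
    refine Finset.prod_congr rfl fun i _ => ?_
    rw [lintegral_indicator ((hφ i) (hs i)), ← withDensity_apply _ ((hφ i) (hs i)),
      ← Measure.map_apply (hφ i) (hs i), h i]
  conv_lhs => rw [← key]
  have hGΦ : Measurable fun T : ι → ℝ => G (fun i => φ i (T i)) := hG.comp hΦ
  rw [lintegral_map hG hΦ, lintegral_withDensity_eq_lintegral_mul _ hP hGΦ]
  refine lintegral_congr fun T => ?_
  simp [mul_comm]

end pi

end KS
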